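import Pool.Agent.Lib.MP_efd5b3_an.Variation

/-!
# Converse regularity for Bergman space extremal functions

The full positive answer to the question: for all `1 < p < ∞` and `1 < q₁ < ∞`, if the kernel
`k ≠ 0` lies in `A^q` (`q = p / (p - 1)`) and in `A^{q₁}`, then the `A^p` extremal function `F` of
`k` lies in `A^{(p - 1) q₁}`.
-/

set_option autoImplicit false

open MeasureTheory Metric Set
open scoped ENNReal ComplexConjugate

namespace Pool.Agent.Results.MP_efd5b3_an.ConverseRegularity

open BergmanReg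

/-- `dA` is a finite measure -/
private theorem isFiniteMeasure_dA : IsFiniteMeasure dA := by
  unfold dA
  have h1 : IsFiniteMeasure ((volume : Measure ℂ).restrict (ball (0 : ℂ) 1)) :=
    isFiniteMeasure_restrict.mpr measure_ball_lt_top.ne
  exact Measure.smul_finite _ ENNReal.ofReal_ne_top

/-- smaller exponents on a finite measure space -/
private theorem memA_of_le {a b : ℝ} (ha : 0 ≤ a) (hab : a ≤ b) {f : ℂ → ℂ} (h : MemA b f) :
    MemA a f := by
  refine ⟨h.1, ?_⟩
  have hfin := isFiniteMeasure_dA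
  have hm : AEStronglyMeasurable f dA := by
    unfold dA
    exact (h.1.continuousOn.aestronglyMeasurable measurableSet_ball).smul_measure _
  refine ((integrable_const (1 : ℝ)).add h.2).mono'
    (hm.norm.aemeasurable.pow_const a).aestronglyMeasurable ?_
  refine ae_of_all _ fun z => ?_
  rw [Real.norm_eq_abs, abs_of_nonneg (by positivity)]
  simp only [Pi.add_apply]
  rcases le_total ‖f z‖ 1 with h1 | h1
  · have h2 : ‖f z‖ ^ a ≤ 1 := Real.rpow_le_one (norm_nonneg _) h1 ha
    have h3 : 0 ≤ ‖f z‖ ^ b := by positivity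
    linarith
  · have h2 : ‖f z‖ ^ a ≤ ‖f z‖ ^ b := Real.rpow_le_rpow_of_exponent_le h1 hab
    linarith

/-- **Converse regularity.** Let `1 < p < ∞`, `1 < q₁ < ∞`, let `k ≠ 0` be in the Bergman space
`A^q`, `q = p / (p - 1)`, and let `F` be the `A^p` extremal function of `k`. If `k` is in
`A^{q₁}`, then `F` is in `A^{(p - 1) q₁}`. -/
theorem result (p q₁ : ℝ) (hp : 1 < p) (hq₁ : 1 < q₁) (k F : ℂ → ℂ)
    (hk : MemA (p / (p - 1)) k) (hk0 : ∃ z ∈ ball (0 : ℂ) 1, k z ≠ 0)
    (hF : IsExtremal p k F) (hk₁ : MemA q₁ k) : MemA ((p - 1) * q₁) F := by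
  have hpq : p.HolderConjugate (p / (p - 1)) := Real.HolderConjugate.conjExponent hp
  set q := p / (p - 1) with hqdef
  have hq : 1 < q := hpq.symm.lt
  have hp0 : 0 < p := hpq.pos
  have hq0 : 0 < q := hpq.symm.pos
  have hpq1 : (p - 1) * q = p := hpq.sub_one_mul_conj
  have hp1 : 0 < p - 1 := by linarith
  rcases le_or_gt q₁ q with hle | hlt
  · refine memA_of_le (by positivity) ?_ hF.1
    calc (p - 1) * q₁ ≤ (p - 1) * q := by gcongr
      _ = p := hpq1
  · obtain ⟨c, hc, hP⟩ := variation hpq hk hk0 hF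
    have hr : 1 < q₁ / q := by
      rw [lt_div_iff₀ hq0]
      linarith
    have hr0 : 0 ≤ q₁ / q := by positivity
    have hqr : q * (q₁ / q) = q₁ := by field_simp
    have hpr : p * (q₁ / q) = (p - 1) * q₁ := by
      calc p * (q₁ / q) = ((p - 1) * q) * (q₁ / q) := by rw [hpq1]
        _ = (p - 1) * (q * (q₁ / q)) := by ring
        _ = _ := by rw [hqr]
    have hpi : ENNReal.ofReal (Real.pi⁻¹) ≠ 0 := by
      simp [Real.pi_pos]
    have hkm : AEStronglyMeasurable k (volume.restrict (ball (0 : ℂ) 1)) :=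
      hk.1.continuousOn.aestronglyMeasurable measurableSet_ball
    -- finiteness of the energy of the kernel
    have h1 : ∫⁻ w, (‖(ball (0 : ℂ) 1).indicator (fun z => (c : ℂ) * k z) w‖ₑ ^ q) ^ (q₁ / q) <
        ⊤ := by
      have h2 : Integrable (fun z => ‖k z‖ ^ q₁) (volume.restrict (ball (0 : ℂ) 1)) := by
        have h3 := hk₁.2
        unfold dA at h3
        exact (integrable_smul_measure hpi ENNReal.ofReal_ne_top).mp h3
      have h4 : ∀ w, (‖(ball (0 : ℂ) 1).indicator (fun z => (c : ℂ) * k z) w‖ₑ ^ q) ^ (q₁ / q) =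
          (ball (0 : ℂ) 1).indicator (fun z => ENNReal.ofReal (c ^ q₁ * ‖k z‖ ^ q₁)) w := by
        intro w
        by_cases hw : w ∈ ball (0 : ℂ) 1
        · rw [indicator_of_mem hw, indicator_of_mem hw, ← ENNReal.rpow_mul, hqr,
            ← ofReal_norm, norm_mul, Complex.norm_real, Real.norm_eq_abs, abs_of_pos hc,
            ENNReal.ofReal_rpow_of_nonneg (by positivity) (by linarith),
            Real.mul_rpow hc.le (norm_nonneg _)]
        · rw [indicator_of_notMem hw, indicator_of_notMem hw, enorm_zero,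
            ENNReal.zero_rpow_of_pos hq0, ENNReal.zero_rpow_of_pos (by linarith)]
      simp_rw [h4]
      rw [lintegral_indicator measurableSet_ball]
      have h5 : Integrable (fun z => c ^ q₁ * ‖k z‖ ^ q₁)
        (volume.restrict (ball (0 : ℂ) 1)) := h2.const_mul _
      have h6 := h5.2
      rwa [hasFiniteIntegral_iff_ofReal (ae_of_all _ fun z => by positivity)] at h6
    have h7 := core hpq hr hP h1
    -- back to the extremal function
    refine ⟨hF.1.1, ?_⟩
    have h8 : Integrable (fun z => ‖F z‖ ^ ((p - 1) * q₁))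
        (volume.restrict (ball (0 : ℂ) 1)) := by
      have hm : AEStronglyMeasurable F (volume.restrict (ball (0 : ℂ) 1)) :=
        hF.1.1.continuousOn.aestronglyMeasurable measurableSet_ball
      refine ⟨(hm.norm.aemeasurable.pow_const _).aestronglyMeasurable, ?_⟩
      rw [hasFiniteIntegral_iff_ofReal (ae_of_all _ fun z => by positivity),
        ← lintegral_indicator measurableSet_ball]
      refine lt_of_le_of_lt (lintegral_mono fun w => ?_) h7
      by_cases hw : w ∈ ball (0 : ℂ) 1
      · rw [indicator_of_mem hw, indicator_of_mem hw, ← ENNReal.rpow_mul, hpr, ← ofReal_norm,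
          ENNReal.ofReal_rpow_of_nonneg (norm_nonneg _) (by positivity)]
      · rw [indicator_of_notMem hw]
        exact zero_le
    unfold dA
    exact h8.smul_measure ENNReal.ofReal_ne_top

end Pool.Agent.Results.MP_efd5b3_an.ConverseRegularity
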